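import Mathlib
import Pool.Agent.H38.PS.Targets2

/-!
# The lower bound for the number of admissible triples with small radical
-/

set_option autoImplicit false

open Pool.Agent.H38.RB Pool.Agent.H38.PS

namespace Pool.Agent.H89.PS

lemma sum_sq (n : ℕ) : ∑ g ∈ Finset.Icc 2 (n + 2), (1 : ℝ) / (g : ℝ) ^ 2 ≤
    3 / 4 - 1 / ((n : ℝ) + 2) := by
  induction n with
  | zero => norm_num
  | succ n ih =>
    rw [show n + 1 + 2 = (n + 2) + 1 by ring, Finset.sum_Icc_succ_top (by omega)]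
    have h1 : (1 : ℝ) / (((n + 2 + 1 : ℕ) : ℝ)) ^ 2 ≤ 1 / ((n : ℝ) + 2) - 1 / ((n : ℝ) + 3) := by
      push_cast
      rw [div_sub_div _ _ (by positivity) (by positivity), div_le_div_iff₀ (by positivity)
        (by positivity)]
      nlinarith [(Nat.cast_nonneg n : (0 : ℝ) ≤ n)]
    have h2 : ((n + 1 : ℕ) : ℝ) + 2 = (n : ℝ) + 3 := by push_cast; ring
    rw [h2]
    linarith

lemma sum_sq' (Y : ℕ) : ∑ g ∈ Finset.Icc 2 Y, (1 : ℝ) / (g : ℝ) ^ 2 ≤ 3 / 4 := by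
  rcases Nat.lt_or_ge Y 2 with h | h
  · rw [Finset.Icc_eq_empty (by omega)]
    norm_num
  · obtain ⟨n, rfl⟩ := Nat.exists_eq_add_of_le' h
    have := sum_sq n
    have h2 : (0 : ℝ) ≤ 1 / ((n : ℝ) + 2) := by positivity
    linarith

/-- the coprime pairs -/
def CP (Y : ℕ) : Finset (ℕ × ℕ) :=
  (Finset.Icc 1 Y ×ˢ Finset.Icc 1 Y).filter fun q => Nat.Coprime q.1 q.2

lemma cop_card (Y : ℕ) : (Y : ℝ) ^ 2 / 4 ≤ ((CP Y).card : ℝ) := by
  classical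
  have h1 : (Finset.Icc 1 Y ×ˢ Finset.Icc 1 Y).card = Y * Y := by
    rw [Finset.card_product]
    simp
  have h2 := Finset.card_filter_add_card_filter_not (s := Finset.Icc 1 Y ×ˢ Finset.Icc 1 Y)
    (fun q : ℕ × ℕ => Nat.Coprime q.1 q.2)
  have h3 : ((Finset.Icc 1 Y ×ˢ Finset.Icc 1 Y).filter
      fun q : ℕ × ℕ => ¬ Nat.Coprime q.1 q.2) ⊆ (Finset.Icc 2 Y).biUnion fun g =>
        (Finset.Icc 1 (Y / g) ×ˢ Finset.Icc 1 (Y / g)).image fun q => (g * q.1, g * q.2) := by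
    intro q hq
    rw [Finset.mem_filter, Finset.mem_product, Finset.mem_Icc, Finset.mem_Icc] at hq
    obtain ⟨⟨⟨ha, hb⟩, hc, hd⟩, hn⟩ := hq
    rw [Finset.mem_biUnion]
    have hg0 : 0 < Nat.gcd q.1 q.2 := Nat.gcd_pos_of_pos_left _ (by omega)
    have hg1 : Nat.gcd q.1 q.2 ≠ 1 := hn
    have hgY : Nat.gcd q.1 q.2 ≤ Y := (Nat.gcd_le_left _ (by omega)).trans hb
    refine ⟨Nat.gcd q.1 q.2, Finset.mem_Icc.2 ⟨by omega, hgY⟩, ?_⟩
    rw [Finset.mem_image]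
    refine ⟨(q.1 / Nat.gcd q.1 q.2, q.2 / Nat.gcd q.1 q.2), ?_, ?_⟩
    · rw [Finset.mem_product, Finset.mem_Icc, Finset.mem_Icc]
      refine ⟨⟨?_, Nat.div_le_div_right hb⟩, ?_, Nat.div_le_div_right hd⟩
      · exact Nat.div_pos (Nat.gcd_le_left _ (by omega)) hg0
      · exact Nat.div_pos (Nat.gcd_le_right _ (by omega)) hg0
    · refine Prod.ext ?_ ?_
      · exact Nat.mul_div_cancel' (Nat.gcd_dvd_left _ _)
      · exact Nat.mul_div_cancel' (Nat.gcd_dvd_right _ _)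
  have h4 := (Finset.card_le_card h3).trans Finset.card_biUnion_le
  have h5 : ∀ g ∈ Finset.Icc 2 Y, ((((Finset.Icc 1 (Y / g) ×ˢ Finset.Icc 1 (Y / g)).image
      fun q : ℕ × ℕ => (g * q.1, g * q.2)).card : ℕ) : ℝ) ≤ (Y : ℝ) ^ 2 * (1 / (g : ℝ) ^ 2) := by
    intro g hg
    have hg2 := (Finset.mem_Icc.1 hg).1
    have e1 : ((Finset.Icc 1 (Y / g) ×ˢ Finset.Icc 1 (Y / g)).image
      fun q : ℕ × ℕ => (g * q.1, g * q.2)).card ≤ (Y / g) * (Y / g) := by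
      refine Finset.card_image_le.trans ?_
      rw [Finset.card_product]
      simp
    have e2 : ((Y / g : ℕ) : ℝ) ≤ (Y : ℝ) / g := Nat.cast_div_le
    have e3 : (0 : ℝ) ≤ ((Y / g : ℕ) : ℝ) := Nat.cast_nonneg _
    calc ((((Finset.Icc 1 (Y / g) ×ˢ Finset.Icc 1 (Y / g)).image
      fun q : ℕ × ℕ => (g * q.1, g * q.2)).card : ℕ) : ℝ) ≤ (((Y / g) * (Y / g) : ℕ) : ℝ) := by
          exact_mod_cast e1
      _ = ((Y / g : ℕ) : ℝ) * ((Y / g : ℕ) : ℝ) := by push_cast; ring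
      _ ≤ ((Y : ℝ) / g) * ((Y : ℝ) / g) := mul_le_mul e2 e2 e3 (e3.trans e2)
      _ = (Y : ℝ) ^ 2 * (1 / (g : ℝ) ^ 2) := by ring
  have h6 : ((((Finset.Icc 1 Y ×ˢ Finset.Icc 1 Y).filter
      fun q : ℕ × ℕ => ¬ Nat.Coprime q.1 q.2).card : ℕ) : ℝ) ≤ (Y : ℝ) ^ 2 * (3 / 4) := by
    refine (Nat.cast_le.2 h4).trans ?_
    rw [Nat.cast_sum]
    refine (Finset.sum_le_sum h5).trans ?_
    rw [← Finset.mul_sum]
    exact mul_le_mul_of_nonneg_left (sum_sq' Y) (by positivity)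
  have h7 : (((CP Y).card : ℕ) : ℝ) + ((((Finset.Icc 1 Y ×ˢ Finset.Icc 1 Y).filter
      fun q : ℕ × ℕ => ¬ Nat.Coprime q.1 q.2).card : ℕ) : ℝ) = (Y : ℝ) * Y := by
    rw [h1] at h2
    have := congrArg (Nat.cast : ℕ → ℝ) h2
    push_cast at this
    exact this
  nlinarith

/-- the triple of a pair -/
def tr (q : ℕ × ℕ) : Fin 3 → ℤ := ![(q.1 : ℤ), (q.2 : ℤ), -((q.1 : ℤ) + q.2)]

lemma tr_inj : Function.Injective tr := by
  intro q q' h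
  have h0 := congrFun h 0
  have h1 := congrFun h 1
  simp only [tr, Matrix.cons_val_zero, Matrix.cons_val_one, Nat.cast_inj] at h0 h1
  exact Prod.ext h0 h1

lemma tr_adm {q : ℕ × ℕ} (h1 : 1 ≤ q.1) (h2 : 1 ≤ q.2) (h : Nat.Coprime q.1 q.2) :
    Adm (tr q) := by
  have c01 : IsCoprime (q.1 : ℤ) (q.2 : ℤ) := Nat.isCoprime_iff_coprime.2 h
  have c02 : IsCoprime (q.1 : ℤ) (-((q.1 : ℤ) + q.2)) := by
    refine IsCoprime.neg_right ?_
    have := (IsCoprime.add_mul_left_right c01 1)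
    rw [mul_one, add_comm] at this
    exact this
  have c12 : IsCoprime (q.2 : ℤ) (-((q.1 : ℤ) + q.2)) := by
    refine IsCoprime.neg_right ?_
    have := (IsCoprime.add_mul_left_right c01.symm 1)
    rw [mul_one] at this
    exact this
  refine ⟨?_, ?_, ?_⟩
  · intro i
    fin_cases i
    · show (q.1 : ℤ) ≠ 0
      omega
    · show (q.2 : ℤ) ≠ 0
      omega
    · show -((q.1 : ℤ) + q.2) ≠ 0
      omega
  · intro i j hij
    fin_cases i <;> fin_cases j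
    · exact absurd rfl hij
    · exact c01
    · exact c02
    · exact c01.symm
    · exact absurd rfl hij
    · exact c12
    · exact c02.symm
    · exact c12.symm
    · exact absurd rfl hij
  · show (q.1 : ℤ) + (q.2 : ℤ) + -((q.1 : ℤ) + q.2) = 0
    ring

lemma tr_ht {q : ℕ × ℕ} {Y : ℕ} (h1 : q.1 ≤ Y) (h2 : q.2 ≤ Y) : ht (tr q) ≤ 2 * Y := by
  show max (q.1 : ℤ).natAbs (max (q.2 : ℤ).natAbs (-((q.1 : ℤ) + q.2)).natAbs) ≤ 2 * Y
  omega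

lemma tr_pd {q : ℕ × ℕ} {Y : ℕ} (h0 : 1 ≤ q.1) (h0' : 1 ≤ q.2) (h1 : q.1 ≤ Y) (h2 : q.2 ≤ Y) :
    pd (pr (tr q)).primeFactors ≤ 2 * Y ^ 3 := by
  have e : pr (tr q) = q.1 * q.2 * (q.1 + q.2) := by
    show ((q.1 : ℤ) * (q.2 : ℤ) * -((q.1 : ℤ) + q.2)).natAbs = _
    rw [mul_neg, Int.natAbs_neg]
    have : (q.1 : ℤ) * (q.2 : ℤ) * ((q.1 : ℤ) + q.2) = ((q.1 * q.2 * (q.1 + q.2) : ℕ) : ℤ) := by
      push_cast
      ring
    rw [this, Int.natAbs_natCast]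
  have h3 : pd (pr (tr q)).primeFactors ≤ pr (tr q) := by
    refine Nat.le_of_dvd ?_ (Nat.prod_primeFactors_dvd _)
    rw [e]
    positivity
  refine h3.trans ?_
  rw [e]
  calc q.1 * q.2 * (q.1 + q.2) ≤ Y * Y * (Y + Y) :=
        Nat.mul_le_mul (Nat.mul_le_mul h1 h2) (Nat.add_le_add h1 h2)
    _ = 2 * Y ^ 3 := by ring

lemma fin_ht (X : ℝ) : {x : Fin 3 → ℤ | Adm x ∧ (pd (pr x).primeFactors : ℝ) ≤ X ∧
    (ht x : ℝ) ≤ X}.Finite := by
  refine ((Fintype.piFinset fun _ : Fin 3 =>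
    Finset.Icc (-(⌊X⌋₊ : ℤ)) (⌊X⌋₊ : ℤ)).finite_toSet).subset ?_
  intro x hx
  obtain ⟨-, -, h⟩ := hx
  have h1 : ht x ≤ ⌊X⌋₊ := Nat.le_floor h
  rw [Finset.mem_coe, Fintype.mem_piFinset]
  intro i
  rw [Finset.mem_Icc]
  unfold ht at h1
  have hi : (x i).natAbs ≤ ⌊X⌋₊ := by
    fin_cases i
    · show (x 0).natAbs ≤ _
      omega
    · show (x 1).natAbs ≤ _
      omega
    · show (x 2).natAbs ≤ _
      omega
  omega

theorem pf_LOWC : T_LOWC := by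
  classical
  refine ⟨1 / 64, by norm_num, ?_⟩
  intro X hX
  have hX0 : (0 : ℝ) ≤ X := by linarith
  set Z : ℝ := X ^ (1 / 3 : ℝ) with hZ
  have hZ3 : Z ^ 3 = X := by
    rw [hZ, ← Real.rpow_natCast, ← Real.rpow_mul hX0]
    norm_num
  have hZ2 : X ^ (2 / 3 : ℝ) = Z ^ 2 := by
    rw [hZ, ← Real.rpow_natCast, ← Real.rpow_mul hX0]
    norm_num
  have hZ0 : 0 ≤ Z := Real.rpow_nonneg hX0 _
  have hZge : 2 ≤ Z := by
    by_contra hc
    push Not at hc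
    have : Z ^ 3 < 2 ^ 3 := pow_lt_pow_left₀ hc hZ0 (by norm_num)
    linarith
  set Y : ℕ := ⌊Z / 2⌋₊ with hY
  have hYle : (Y : ℝ) ≤ Z / 2 := Nat.floor_le (by positivity)
  have hYlt : Z / 2 < (Y : ℝ) + 1 := Nat.lt_floor_add_one _
  have hY1 : 1 ≤ Y := by
    rw [hY, Nat.one_le_floor_iff]
    linarith
  have hY1' : (1 : ℝ) ≤ Y := by exact_mod_cast hY1
  have hsub : ((CP Y).image tr : Set (Fin 3 → ℤ)) ⊆ {x : Fin 3 → ℤ | Adm x ∧
      (pd (pr x).primeFactors : ℝ) ≤ X ∧ (ht x : ℝ) ≤ X} := by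
    intro x hx
    rw [Finset.mem_coe, Finset.mem_image] at hx
    obtain ⟨q, hq, rfl⟩ := hx
    unfold CP at hq
    rw [Finset.mem_filter, Finset.mem_product, Finset.mem_Icc, Finset.mem_Icc] at hq
    obtain ⟨⟨⟨ha, hb⟩, hc, hd⟩, hn⟩ := hq
    refine ⟨tr_adm ha hc hn, ?_, ?_⟩
    · have h1 := tr_pd ha hc hb hd
      have h2 : ((pd (pr (tr q)).primeFactors : ℕ) : ℝ) ≤ 2 * (Y : ℝ) ^ 3 := by exact_mod_cast h1
      have h3 : (Y : ℝ) ^ 3 ≤ (Z / 2) ^ 3 := pow_le_pow_left₀ (by positivity) hYle 3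
      have h4 : (Z / 2) ^ 3 = X / 8 := by
        rw [div_pow, hZ3]
        norm_num
      linarith
    · have h1 := tr_ht hb hd
      have h2 : ((ht (tr q) : ℕ) : ℝ) ≤ 2 * (Y : ℝ) := by exact_mod_cast h1
      have h3 : Z ≤ X := by
        rw [← hZ3]
        nlinarith [sq_nonneg Z]
      linarith
  have hcard : ((CP Y).card : ℝ) ≤ ({x : Fin 3 → ℤ | Adm x ∧
      (pd (pr x).primeFactors : ℝ) ≤ X ∧ (ht x : ℝ) ≤ X}.ncard : ℝ) := by
    have h1 := Set.ncard_le_ncard hsub (fin_ht X)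
    rw [Set.ncard_coe_finset, Finset.card_image_of_injective _ tr_inj] at h1
    exact_mod_cast h1
  have h8 := cop_card Y
  rw [hZ2]
  have h9 : Z / 4 ≤ Y := by linarith
  nlinarith

end Pool.Agent.H89.PS
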